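import Pool.Agent.H24.RD.Targets

namespace Pool.Agent.H84.RDF

open Pool.Agent.H24.RD NumberField Height Finset IntermediateField

theorem fp_nonarch {M : Type} [Field M] [NumberField M] (v : FinitePlace M) :
    IsNonarchimedean v.1 := fun x y => FinitePlace.add_le v x y

theorem pf_FR : T_HA → T_HB → T_PF → T_POW → T_FR1 → T_FR := by
  intro hHA hHB hPF hPOW hFR1 K Ω _ _ _ _ _ _ _ ℓ hℓ
  haveI : Algebra.IsAlgebraic ℚ Ω := Algebra.IsAlgebraic.trans ℚ K Ω
  set d := Module.finrank ℚ K with hd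
  have hd0 : 0 < d := Module.finrank_pos
  set q := ℓ ^ d.factorial with hq
  set Q := ℓ ^ (d + 2) with hQ
  have hq2 : 2 ≤ q := by
    calc 2 ≤ ℓ := hℓ.two_le
      _ = ℓ ^ 1 := (pow_one _).symm
      _ ≤ ℓ ^ d.factorial := Nat.pow_le_pow_right hℓ.pos (Nat.factorial_pos d)
  have hQ0 : 0 < Q := pow_pos hℓ.pos _
  have hlog2 : 0 < Real.log 2 := Real.log_pos one_lt_two
  have hqR : (2 : ℝ) ≤ (q : ℝ) := by exact_mod_cast hq2
  have hQR : (0 : ℝ) < (Q : ℝ) := by exact_mod_cast hQ0
  refine ⟨Real.log 2 / (Q * (q + 1)), by positivity, ?_⟩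
  intro N' hN' β hβ hβ0 hβr
  have hN0 : N' ≠ 0 := fun h => hN' (h ▸ dvd_zero ℓ)
  haveI : NeZero N' := ⟨hN0⟩
  haveI : NeZero (N' : Ω) := ⟨by exact_mod_cast hN0⟩
  obtain ⟨ζ', hζ'⟩ := HasEnoughRootsOfUnity.exists_primitiveRoot Ω N'
  set M := IntermediateField.adjoin K {z : Ω | z ^ N' = 1} with hM
  have hζM : ζ' ∈ M := IntermediateField.subset_adjoin K _ hζ'.pow_eq_one
  have hMs : M = IntermediateField.adjoin K {ζ'} := by
    apply le_antisymm
    · rw [hM]
      apply IntermediateField.adjoin_le_iff.2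
      intro z hz
      obtain ⟨i, -, rfl⟩ := hζ'.eq_pow_of_pow_eq_one hz
      exact pow_mem (IntermediateField.mem_adjoin_simple_self K ζ') i
    · apply IntermediateField.adjoin_le_iff.2
      intro z hz
      rw [Set.mem_singleton_iff] at hz
      rw [hz]; exact hζM
  haveI hfd : FiniteDimensional K M := by
    rw [hMs]
    exact IntermediateField.adjoin.finiteDimensional
      (Algebra.IsIntegral.isIntegral (R := K) ζ')
  haveI : FiniteDimensional ℚ M := FiniteDimensional.trans ℚ K M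
  haveI : CharZero M := charZero_of_injective_algebraMap (algebraMap K M).injective
  haveI : NumberField M := {}
  set ζ : M := ⟨ζ', hζM⟩ with hζ
  have hζp : IsPrimitiveRoot ζ N' :=
    IsPrimitiveRoot.of_map_of_injective (f := M.val) (by exact hζ') M.val.injective
  have htop : IntermediateField.adjoin K {ζ} = ⊤ := by
    apply IntermediateField.lift_injective M
    rw [IntermediateField.lift_adjoin_simple, IntermediateField.lift_top]
    exact hMs.symm
  obtain ⟨σ, hσ⟩ := hFR1 K ℓ hℓ M N' hN' ζ hζp htop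
  set D : ℝ := (Module.finrank ℚ M : ℝ) with hD
  have hD0 : 0 < D := by
    rw [hD]; exact_mod_cast Module.finrank_pos (R := ℚ) (M := M)
  have hAM : ∀ x : M, absLogHeight₁ x = logHeight₁ x / D := fun x => hHA M M x
  have hAO : ∀ x : M, absLogHeight₁ (x : Ω) = logHeight₁ x / D := fun x => hHA M Ω x
  obtain ⟨-, -, -, -, -, hinv, -⟩ := hHB M
  obtain ⟨-, -, -, -, -, -, hroot⟩ := hHB Ω
  set b : M := ⟨β, hβ⟩ with hb
  have hσb : logHeight₁ (σ b) = logHeight₁ b := by
    have h1 := hinv σ.toRingEquiv b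
    rw [hAM, hAM] at h1
    exact (div_left_inj' hD0.ne').1 h1
  have hbβ : absLogHeight₁ β = logHeight₁ b / D := hAO b
  set U : M := (σ b) ^ Q with hU
  set W : M := (b ^ q) ^ Q with hW
  have hhU : logHeight₁ U = Q * logHeight₁ b := by rw [hU, logHeight₁_pow, hσb]
  have hhW : logHeight₁ W = Q * (q * logHeight₁ b) := by
    rw [hW, logHeight₁_pow, logHeight₁_pow]
  by_cases hUW : U = W
  · exfalso
    have h1 : (Q : ℝ) * logHeight₁ b = Q * (q * logHeight₁ b) := by
      rw [← hhU, ← hhW, hUW]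
    have h2 : logHeight₁ b = q * logHeight₁ b := mul_left_cancel₀ hQR.ne' h1
    have h3 : logHeight₁ b = 0 := by
      have h4 : (q - 1 : ℝ) * logHeight₁ b = 0 := by linarith
      rcases mul_eq_zero.1 h4 with h5 | h5
      · linarith
      · exact h5
    have h4 : absLogHeight₁ β = 0 := by rw [hbβ, h3, zero_div]
    obtain ⟨n, hn, hn1⟩ := hroot β hβ0 h4
    exact hβr n hn hn1
  · have h1 := hPF M ℓ hℓ Unit (fun _ => U) (fun _ => W) (fun _ => hUW) 2 (by
      intro v hv
      refine ⟨(), ?_⟩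
      have h2 := hPOW M v.1 (fp_nonarch v) ℓ hℓ hv d hd0 (σ b) (b ^ q) (hσ v hv b) 2
      exact h2)
    simp only [Fintype.card_unit, Finset.univ_unique, Finset.sum_singleton] at h1
    rw [hhU, hhW, ← hD] at h1
    rw [hbβ, div_le_div_iff₀ (by positivity) hD0]
    have hℓR : Real.log 2 ≤ Real.log ℓ :=
      Real.log_le_log (by norm_num) (by exact_mod_cast hℓ.two_le)
    push_cast at h1
    nlinarith [mul_le_mul_of_nonneg_left hℓR hD0.le]

end Pool.Agent.H84.RDF
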