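import Pool.Agent.H24.RD.Targets

namespace Pool.Agent.H84.RDS

open Pool.Agent.H24.RD NumberField Height Finset

theorem pf_SAT : T_SAT := by
  classical
  intro F _ _ r γ hM
  obtain ⟨hγ, hind⟩ := hM
  set B : ℝ := ∑ i, logHeight₁ (γ i) with hB
  have hfin : {z : F | logHeight₁ z ≤ B}.Finite := Northcott.finite_le B
  let P : F → ℕ → Prop := fun z k => 0 < k ∧ ∃ y : Fin r → ℤ, z ^ k = ∏ i, γ i ^ y i
  let κ : F → ℕ := fun z => if h : ∃ k, P z k then h.choose else 1
  have hκ : ∀ z, 0 < κ z := by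
    intro z
    by_cases h : ∃ k, P z k
    · simp only [κ, dif_pos h]
      exact h.choose_spec.1
    · simp only [κ, dif_neg h]
      exact Nat.one_pos
  refine ⟨∏ z ∈ hfin.toFinset, κ z, Finset.prod_pos fun z _ => hκ z, ?_⟩
  intro z k y hk hz i
  have hk0 : (k : ℤ) ≠ 0 := by exact_mod_cast hk.ne'
  let z' : F := z * ∏ i, γ i ^ (-(y i / k))
  have hz' : z' ^ k = ∏ i, γ i ^ (y i % k) := by
    simp only [z']
    rw [mul_pow, hz, ← Finset.prod_pow, ← Finset.prod_mul_distrib]
    refine Finset.prod_congr rfl fun i _ => ?_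
    rw [← zpow_natCast, ← zpow_mul, ← zpow_add₀ (hγ i)]
    congr 1
    rw [Int.emod_def]
    ring
  have hmod : ∀ i, 0 ≤ y i % k ∧ y i % k < k := fun i =>
    ⟨Int.emod_nonneg _ hk0, Int.emod_lt_of_pos _ (by exact_mod_cast hk)⟩
  have hht : logHeight₁ z' ≤ B := by
    have h1 : (k : ℝ) * logHeight₁ z' ≤ k * B := by
      rw [← logHeight₁_pow, hz']
      refine (logHeight₁_prod_le _ _).trans ?_
      rw [hB, Finset.mul_sum]
      refine Finset.sum_le_sum fun i _ => ?_
      rw [logHeight₁_zpow]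
      refine mul_le_mul_of_nonneg_right ?_ (zero_le_logHeight₁ _)
      obtain ⟨h1, h2⟩ := hmod i
      have h3 : (y i % k).natAbs ≤ k := by omega
      exact_mod_cast h3
    have hk' : (0 : ℝ) < k := by exact_mod_cast hk
    exact le_of_mul_le_mul_left h1 hk'
  have hmem : z' ∈ hfin.toFinset := hfin.mem_toFinset.2 hht
  have hex : ∃ k, P z' k := ⟨k, hk, _, hz'⟩
  have hκz : κ z' = hex.choose := by simp only [κ, dif_pos hex]
  obtain ⟨-, y', hy'⟩ := hex.choose_spec
  rw [← hκz] at hy'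
  have hdvd : κ z' ∣ ∏ z ∈ hfin.toFinset, κ z := Finset.dvd_prod_of_mem _ hmem
  have hrel : ∏ i, γ i ^ ((y i % k) * κ z' - y' i * k) = 1 := by
    have h1 : ∏ i, γ i ^ ((y i % k) * κ z') = ∏ i, γ i ^ (y' i * k) := by
      calc ∏ i, γ i ^ ((y i % k) * κ z') = (∏ i, γ i ^ (y i % k)) ^ (κ z') := by
            rw [← Finset.prod_pow]
            exact Finset.prod_congr rfl fun i _ => by rw [← zpow_natCast, ← zpow_mul]
        _ = (z' ^ k) ^ (κ z') := by rw [hz']
        _ = (z' ^ (κ z')) ^ k := by rw [← pow_mul, ← pow_mul, mul_comm]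
        _ = (∏ i, γ i ^ y' i) ^ k := by rw [hy']
        _ = _ := by
            rw [← Finset.prod_pow]
            exact Finset.prod_congr rfl fun i _ => by rw [← zpow_natCast, ← zpow_mul]
    have h2 : ∏ i, γ i ^ ((y i % k) * κ z' - y' i * k) =
        (∏ i, γ i ^ ((y i % k) * κ z')) / ∏ i, γ i ^ (y' i * k) := by
      rw [← Finset.prod_div_distrib]
      exact Finset.prod_congr rfl fun i _ => by rw [zpow_sub₀ (hγ i)]
    rw [h2, h1]
    refine div_self ?_
    exact Finset.prod_ne_zero_iff.2 fun i _ => zpow_ne_zero _ (hγ i)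
  have h0 := congrFun (hind _ hrel) i
  simp only [Pi.zero_apply] at h0
  obtain ⟨c, hc⟩ := hdvd
  have h1 : (y i % k) * (κ z' : ℤ) = y' i * k := by linarith
  rw [hc]
  push_cast
  refine ⟨(κ z' : ℤ) * c * (y i / k) + c * y' i, ?_⟩
  have h2 : y i = k * (y i / k) + y i % k := (Int.mul_ediv_add_emod _ _).symm
  calc (κ z' : ℤ) * c * y i = (κ z' : ℤ) * c * (k * (y i / k)) + c * ((y i % k) * κ z') := by
        conv_lhs => rw [h2]
        ring
    _ = _ := by rw [h1]; ring

end Pool.Agent.H84.RDS
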