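import Pool.Agent.H79.RD.Targets

namespace Pool.Agent.H84.RD

open Finset Pool.Agent.H79.RD

/-- The subcube with the bits in `U` free has `2 ^ |U|` elements. -/
theorem cube_card {b : ℕ} (U : Finset (Fin b)) (x0 : Fin b → Bool) :
    (Finset.univ.filter (fun x : Fin b → Bool => ∀ j, j ∉ U → x j = x0 j)).card
      = 2 ^ U.card := by
  classical
  have h : (Finset.univ.filter (fun x : Fin b → Bool => ∀ j, j ∉ U → x j = x0 j))
      = Fintype.piFinset (fun j => if j ∈ U then (Finset.univ : Finset Bool) else {x0 j}) := by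
    ext x
    simp only [mem_filter, mem_univ, true_and, Fintype.mem_piFinset]
    constructor
    · intro hx j
      by_cases hj : j ∈ U
      · simp [hj]
      · simp [hj, hx j hj]
    · intro hx j hj
      have := hx j
      simpa [hj] using this
  rw [h, Fintype.card_piFinset]
  have h2 : ∀ j, (if j ∈ U then (Finset.univ : Finset Bool) else {x0 j}).card
      = if j ∈ U then 2 else 1 := by
    intro j
    split_ifs <;> simp
  rw [Finset.prod_congr rfl (fun j _ => h2 j), Finset.prod_ite]
  simp

theorem cnt_mono {I : Type} [Fintype I] [DecidableEq I] (T : ℕ) (P Q : (I → Fin T) → Prop)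
    (h : ∀ ω, P ω → Q ω) : cnt T P ≤ cnt T Q := by
  unfold cnt
  apply Finset.card_le_card
  intro ω hω
  simp only [Finset.mem_filter, Finset.mem_univ, true_and] at hω ⊢
  exact h ω hω

theorem pf_EX : T_UB → T_EX := by
  classical
  intro hUB N b k T a g R h hT hhR
  -- configurations
  let Base := (Fin N → Fin b → Bool) × Finset (Fin N) × Fin N × Finset (Fin b)
  let Q := Base × ((Fin h → Fin b → Bool) × (Fin h → Fin k → Fin N))
  let cfg : Finset Q := Finset.univ.filter (fun c => c.1.2.1.card ≤ a ∧ c.1.2.2.2.card = g ∧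
    (∀ r j, j ∉ c.1.2.2.2 → c.2.1 r j = c.1.1 c.1.2.2.1 j) ∧
    (∀ r j, c.2.2 r j ∈ insert c.1.2.2.1 c.1.2.1))
  let π : Q → Fin h → Idx N b k := fun c r =>
    (c.2.2 r, Function.update c.1.1 c.1.2.2.1 (c.2.1 r) ∘ c.2.2 r)
  have hcount : cfg.card ≤ (2 ^ (b * N) * 2 ^ N * N * 2 ^ b) * (2 ^ g * (a + 1) ^ k) ^ h := by
    have h1 := Finset.card_le_mul_card_image (f := (Prod.fst : Q → Base)) cfg
      ((2 ^ g * (a + 1) ^ k) ^ h) ?_
    · refine h1.trans ?_
      rw [mul_comm]
      apply Nat.mul_le_mul_right
      refine (Finset.card_le_univ _).trans ?_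
      have : Fintype.card Base = 2 ^ (b * N) * 2 ^ N * N * 2 ^ b := by
        simp only [Base, Fintype.card_prod, Fintype.card_fun, Fintype.card_fin, Fintype.card_bool,
          Fintype.card_finset]
        rw [← pow_mul]
        ring
      rw [this]
    · intro β hβ
      rw [Finset.mem_image] at hβ
      obtain ⟨c0, hc0, rfl⟩ := hβ
      have hc0' := (Finset.mem_filter.1 hc0).2
      obtain ⟨hA, hU, -, -⟩ := hc0'
      set β := c0.1 with hβ
      obtain ⟨ζ, A, i, U⟩ := β
      simp only at hA hU
      have hsub : cfg.filter (fun x => x.1 = (ζ, A, i, U)) ⊆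
          ((Fintype.piFinset (fun _ : Fin h => Finset.univ.filter
              (fun x : Fin b → Bool => ∀ j, j ∉ U → x j = ζ i j))) ×ˢ
            (Fintype.piFinset (fun _ : Fin h => Fintype.piFinset
              (fun _ : Fin k => insert i A)))).image
            (fun q => (((ζ, A, i, U), q) : Q)) := by
        intro c hc
        rw [Finset.mem_filter] at hc
        obtain ⟨hc, hc1⟩ := hc
        obtain ⟨-, -, hc3, hc4⟩ := (Finset.mem_filter.1 hc).2
        rw [hc1] at hc3 hc4
        rw [Finset.mem_image]
        refine ⟨c.2, ?_, ?_⟩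
        · rw [Finset.mem_product]
          constructor
          · rw [Fintype.mem_piFinset]
            intro r
            rw [Finset.mem_filter]
            exact ⟨Finset.mem_univ _, fun j hj => hc3 r j hj⟩
          · rw [Fintype.mem_piFinset]
            intro r
            rw [Fintype.mem_piFinset]
            intro j
            exact hc4 r j
        · rw [← hc1]
      refine (Finset.card_le_card hsub).trans (Finset.card_image_le.trans ?_)
      rw [Finset.card_product, Fintype.card_piFinset, Fintype.card_piFinset]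
      simp only [Fintype.card_piFinset, Finset.prod_const, Finset.card_univ, Fintype.card_fin,
        cube_card, hU]
      rw [← mul_pow]
      apply Nat.pow_le_pow_left
      apply Nat.mul_le_mul_left
      apply Nat.pow_le_pow_left
      exact (Finset.card_insert_le _ _).trans (Nat.add_le_add_right hA 1)
  have hub := hUB (Idx N b k) Q T h cfg π hT
  have hmono : cnt T (fun ω : Idx N b k → Fin T => ¬ PE (forbOf ω) a g R) ≤
      cnt (I := Idx N b k) T (fun ω => ∃ c ∈ cfg, Function.Injective (π c) ∧
        ∀ j, (ω (π c j)).val = 0) := by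
    refine cnt_mono T _ _ ?_
    intro ω hb
    unfold PE at hb
    push Not at hb
    obtain ⟨ζ, A, i, U, hA, hiA, hU, hlt⟩ := hb
    set Cb : Finset (Fin b → Bool) :=
      Finset.univ.filter (fun x : Fin b → Bool => ∀ j, j ∉ U → x j = ζ i j) with hCb
    have hsub : allowed (forbOf ω) ζ A i U ⊆ Cb := by
      intro x hx
      unfold allowed at hx
      rw [Finset.mem_filter] at hx
      rw [hCb, Finset.mem_filter]
      exact ⟨Finset.mem_univ _, hx.2.1⟩
    have hcard : h ≤ (Cb \ allowed (forbOf ω) ζ A i U).card := by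
      rw [Finset.card_sdiff_of_subset hsub, hCb, cube_card, hU]
      omega
    obtain ⟨Y, hY, hYc⟩ := Finset.exists_subset_card_eq hcard
    let e := Y.equivFinOfCardEq hYc
    let y : Fin h → Fin b → Bool := fun r => (e.symm r).1
    have hy : ∀ r, y r ∈ Cb \ allowed (forbOf ω) ζ A i U := fun r => hY (e.symm r).2
    have hyinj : Function.Injective y := by
      intro r r' hrr
      exact e.symm.injective (Subtype.ext hrr)
    have hs : ∀ r, ∃ σ : Fin k → Fin N, (∀ j, σ j ∈ insert i A) ∧ (∃ j, σ j = i) ∧
        (σ, Function.update ζ i (y r) ∘ σ) ∈ forbOf ω := by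
      intro r
      have h1 := hy r
      rw [Finset.mem_sdiff] at h1
      obtain ⟨h1, h2⟩ := h1
      unfold allowed at h2
      rw [Finset.mem_filter] at h2
      rw [hCb, Finset.mem_filter] at h1
      by_contra hcon
      push Not at hcon
      exact h2 ⟨Finset.mem_univ _, h1.2, fun σ h3 h4 => hcon σ h3 h4⟩
    choose s hs1 hs2 hs3 using hs
    refine ⟨(((ζ, A, i, U), (y, s)) : Q), ?_, ?_, ?_⟩
    · rw [Finset.mem_filter]
      refine ⟨Finset.mem_univ _, hA, hU, ?_, ?_⟩
      · intro r j hj
        have h1 := (Finset.mem_sdiff.1 (hy r)).1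
        rw [hCb, Finset.mem_filter] at h1
        exact h1.2 j hj
      · intro r j
        exact hs1 r j
    · intro r r' hrr
      have h1 : (s r, Function.update ζ i (y r) ∘ s r) =
          (s r', Function.update ζ i (y r') ∘ s r') := hrr
      rw [Prod.mk.injEq] at h1
      obtain ⟨h2, h3⟩ := h1
      obtain ⟨j, hj⟩ := hs2 r
      have h4 := congrFun h3 j
      have hj' : s r' j = i := by rw [← h2]; exact hj
      simp only [Function.comp, hj, hj', Function.update_self] at h4
      exact hyinj h4
    · intro r
      have h1 := hs3 r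
      unfold forbOf at h1
      rw [Finset.mem_filter] at h1
      exact h1.2
  calc cnt T (fun ω : Idx N b k → Fin T => ¬ PE (forbOf ω) a g R) * T ^ h
      ≤ cnt (I := Idx N b k) T (fun ω => ∃ c ∈ cfg, Function.Injective (π c) ∧
        ∀ j, (ω (π c j)).val = 0) * T ^ h := Nat.mul_le_mul_right _ hmono
    _ ≤ cfg.card * T ^ Fintype.card (Idx N b k) := hub
    _ ≤ _ := Nat.mul_le_mul_right _ hcount

end Pool.Agent.H84.RD
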