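import Pool.Agent.H79.RD.Targets

namespace Pool.Agent.H84.RD

open Finset Pool.Agent.H79.RD

theorem nb_cnt_mono {I : Type} [Fintype I] [DecidableEq I] (T : ℕ) (P Q : (I → Fin T) → Prop)
    (h : ∀ ω, P ω → Q ω) : cnt T P ≤ cnt T Q := by
  unfold cnt
  apply Finset.card_le_card
  intro ω hω
  simp only [Finset.mem_filter, Finset.mem_univ, true_and] at hω ⊢
  exact h ω hω

theorem prs_length {N b k : ℕ} (ζ0 : Fin N → Fin b → Bool) (l : List (Ev N b k)) :
    (prs ζ0 l).length = l.length := by
  induction l with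
  | nil => rfl
  | cons e l ih => simp [prs, ih]

theorem prs_drop {N b k : ℕ} (ζ0 : Fin N → Fin b → Bool) (l : List (Ev N b k)) (n : ℕ) :
    prs ζ0 (l.drop n) = (prs ζ0 l).drop n := by
  induction l generalizing n with
  | nil => simp [prs]
  | cons e l ih =>
    cases n with
    | zero => rfl
    | succ n => simp only [List.drop_succ_cons, prs]; exact ih n

/-- The possible events have `m * N * 2 ^ b * a ^ k` elements. -/
theorem ev_card {N b k m a : ℕ} (A : Fin m → Finset (Fin N)) (hA : ∀ q, (A q).card ≤ a) :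
    (Finset.univ.filter (fun e : Fin m × Fin N × (Fin b → Bool) × (Fin k → Fin N) =>
      ∀ j, e.2.2.2 j ∈ A e.1)).card ≤ m * N * 2 ^ b * a ^ k := by
  classical
  have h1 := Finset.card_le_mul_card_image
    (f := (fun e : Fin m × Fin N × (Fin b → Bool) × (Fin k → Fin N) => (e.1, e.2.1, e.2.2.1)))
    (Finset.univ.filter (fun e : Fin m × Fin N × (Fin b → Bool) × (Fin k → Fin N) =>
      ∀ j, e.2.2.2 j ∈ A e.1)) (a ^ k) ?_
  · refine h1.trans ?_
    rw [mul_comm]
    apply Nat.mul_le_mul_right
    refine (Finset.card_le_univ _).trans ?_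
    simp only [Fintype.card_prod, Fintype.card_fun, Fintype.card_fin, Fintype.card_bool]
    exact le_of_eq (by ring)
  · rintro ⟨p, i, x⟩ -
    have hsub : (Finset.univ.filter (fun e : Fin m × Fin N × (Fin b → Bool) × (Fin k → Fin N) =>
        ∀ j, e.2.2.2 j ∈ A e.1)).filter (fun e => (e.1, e.2.1, e.2.2.1) = (p, i, x)) ⊆
        (Fintype.piFinset (fun _ : Fin k => A p)).image (fun s => (p, i, x, s)) := by
      intro e he
      rw [Finset.mem_filter] at he
      obtain ⟨he, he1⟩ := he
      have he2 := (Finset.mem_filter.1 he).2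
      simp only [Prod.mk.injEq] at he1
      obtain ⟨h1, h2, h3⟩ := he1
      rw [Finset.mem_image]
      refine ⟨e.2.2.2, ?_, ?_⟩
      · rw [Fintype.mem_piFinset]
        intro j
        rw [← h1]
        exact he2 j
      · rw [← h1, ← h2, ← h3]
    refine (Finset.card_le_card hsub).trans (Finset.card_image_le.trans ?_)
    rw [Fintype.card_piFinset]
    simp only [Finset.prod_const, Finset.card_univ, Fintype.card_fin]
    exact Nat.pow_le_pow_left (hA p) k

theorem pf_NB : T_UB → T_NB := by
  classical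
  intro hUB N b k T a m R hT
  let Base := (Fin N → Fin b → Bool) × (Fin m → Finset (Fin N))
  let E := Fin m × Fin N × (Fin b → Bool) × (Fin k → Fin N)
  let Q := Base × (Fin R → E)
  let mkE : E → Ev N b k := fun e => ⟨e.1, e.2.1, e.2.2.1, e.2.2.2⟩
  let cfg : Finset Q := Finset.univ.filter (fun c => (∀ q, (c.1.2 q).card ≤ a) ∧
    ∀ r j, (c.2 r).2.2.2 j ∈ c.1.2 (c.2 r).1)
  let evs : Q → List (Ev N b k) := fun c => List.ofFn (fun r => mkE (c.2 r))
  have hlen : ∀ c, (prs c.1.1 (evs c)).length = R := by
    intro c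
    rw [prs_length]
    simp [evs]
  let π : Q → Fin R → Idx N b k := fun c r => (prs c.1.1 (evs c)).get (Fin.cast (hlen c).symm r)
  have hcount : cfg.card ≤ (2 ^ (b * N) * 2 ^ (N * m)) * (m * N * 2 ^ b * a ^ k) ^ R := by
    have h1 := Finset.card_le_mul_card_image (f := (Prod.fst : Q → Base)) cfg
      ((m * N * 2 ^ b * a ^ k) ^ R) ?_
    · refine h1.trans ?_
      rw [mul_comm]
      apply Nat.mul_le_mul_right
      refine (Finset.card_le_univ _).trans ?_
      have : Fintype.card Base = 2 ^ (b * N) * 2 ^ (N * m) := by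
        simp only [Base, Fintype.card_prod, Fintype.card_fun, Fintype.card_fin, Fintype.card_bool,
          Fintype.card_finset]
        rw [← pow_mul, ← pow_mul]
      rw [this]
    · intro β hβ
      rw [Finset.mem_image] at hβ
      obtain ⟨c0, hc0, rfl⟩ := hβ
      have hc0' := (Finset.mem_filter.1 hc0).2
      obtain ⟨hA, -⟩ := hc0'
      have hsub : cfg.filter (fun x => x.1 = c0.1) ⊆
          (Fintype.piFinset (fun _ : Fin R => Finset.univ.filter (fun e : E =>
            ∀ j, e.2.2.2 j ∈ c0.1.2 e.1))).image (fun q => ((c0.1, q) : Q)) := by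
        intro c hc
        rw [Finset.mem_filter] at hc
        obtain ⟨hc, hc1⟩ := hc
        obtain ⟨-, hc3⟩ := (Finset.mem_filter.1 hc).2
        rw [hc1] at hc3
        rw [Finset.mem_image]
        refine ⟨c.2, ?_, ?_⟩
        · rw [Fintype.mem_piFinset]
          intro r
          rw [Finset.mem_filter]
          exact ⟨Finset.mem_univ _, fun j => hc3 r j⟩
        · rw [← hc1]
      refine (Finset.card_le_card hsub).trans (Finset.card_image_le.trans ?_)
      rw [Fintype.card_piFinset]
      simp only [Finset.prod_const, Finset.card_univ, Fintype.card_fin]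
      exact Nat.pow_le_pow_left (ev_card c0.1.2 hA) R
  have hub := hUB (Idx N b k) Q T R cfg π hT
  have hmono : cnt T (fun ω : Idx N b k → Fin T => ¬ PN (forbOf ω) a m R) ≤
      cnt (I := Idx N b k) T (fun ω => ∃ c ∈ cfg, Function.Injective (π c) ∧
        ∀ j, (ω (π c j)).val = 0) := by
    refine nb_cnt_mono T _ _ ?_
    intro ω hb
    unfold PN at hb
    push Not at hb
    obtain ⟨A, hA, ζ0, ev, hev, hforb, hnd, hR⟩ := hb
    set l := ev.drop (ev.length - R) with hl
    have hll : l.length = R := by rw [hl, List.length_drop]; omega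
    have hpl : prs ζ0 l = (prs ζ0 ev).drop (ev.length - R) := prs_drop _ _ _
    have hforb' : ∀ π ∈ prs ζ0 l, π ∈ forbOf ω := by
      intro π hπ
      rw [hpl] at hπ
      exact hforb π (List.mem_of_mem_drop hπ)
    have hnd' : (prs ζ0 l).Nodup := by
      rw [hpl]
      exact hnd.sublist (List.drop_sublist _ _)
    have hev' : ∀ e ∈ l, e.p < m ∧ ∀ j, e.s j ∈ A e.p := by
      intro e he
      exact hev e (List.mem_of_mem_drop he)
    have hmem : ∀ r : Fin R, l.get (Fin.cast hll.symm r) ∈ l := fun r => List.get_mem _ _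
    let c : Q := ((ζ0, fun q => A q), fun r =>
      (⟨(l.get (Fin.cast hll.symm r)).p, (hev' _ (hmem r)).1⟩,
        (l.get (Fin.cast hll.symm r)).i, (l.get (Fin.cast hll.symm r)).x,
        (l.get (Fin.cast hll.symm r)).s))
    have hevc : evs c = l := by
      apply List.ext_get
      · simp [evs, hll]
      · intro n h1 h2
        simp only [evs, List.get_ofFn]
        rfl
    have hc1 : c.1.1 = ζ0 := rfl
    have hget : ∀ r, π c r ∈ prs ζ0 l := by
      intro r
      have h1 : π c r ∈ prs c.1.1 (evs c) := List.get_mem _ _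
      rw [hevc, hc1] at h1
      exact h1
    have hnd2 : (prs c.1.1 (evs c)).Nodup := by
      rw [hevc, hc1]
      exact hnd'
    refine ⟨c, ?_, ?_, ?_⟩
    · rw [Finset.mem_filter]
      refine ⟨Finset.mem_univ _, fun q => hA q, ?_⟩
      intro r j
      exact (hev' _ (hmem r)).2 j
    · intro r r' hrr
      have h1 := (List.nodup_iff_injective_get.1 hnd2) hrr
      exact Fin.cast_injective _ h1
    · intro r
      have h1 := hforb' _ (hget r)
      unfold forbOf at h1
      rw [Finset.mem_filter] at h1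
      exact h1.2
  calc cnt T (fun ω : Idx N b k → Fin T => ¬ PN (forbOf ω) a m R) * T ^ R
      ≤ cnt (I := Idx N b k) T (fun ω => ∃ c ∈ cfg, Function.Injective (π c) ∧
        ∀ j, (ω (π c j)).val = 0) * T ^ R := Nat.mul_le_mul_right _ hmono
    _ ≤ cfg.card * T ^ Fintype.card (Idx N b k) := hub
    _ ≤ _ := Nat.mul_le_mul_right _ hcount

end Pool.Agent.H84.RD
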